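import Pool.Agent.Helper44K9.FB.Fin
import Pool.Agent.Results.MP_663568_nt.SmallFrequencySets

/-!
# Short intervals and unipotent affine maps of tori

`T x = A x + b` on the torus `ℝ^m/ℤ^m`, `A` a unipotent integer matrix. For the Möbius function, for every continuous
`F` and every compact set `E` of translation vectors `b` whose images under the integral linear forms `k` fixed by `A`
(the frequencies of the maximal equicontinuous factor) are null sets of irrational numbers, the sum over `n ≤ N` of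
`(1/n) sup |∑_{h ≤ H} F(T^{n+h} x) μ(n+h)|`, the supremum over all `b` in `E` AND all starting points `x`, is
`o(H log N)`, uniformly over `N ≥ H`.
-/

set_option autoImplicit false

open Finset MeasureTheory

namespace Pool.Agent.Results.MP_663568_nt.UnipotentAffineMaps

/-- the affine map `x ↦ A x + b` of the torus `ℝ^m/ℤ^m` -/
def affineMap {m : ℕ} (A : Matrix (Fin m) (Fin m) ℤ) (b x : Fin m → UnitAddCircle) : Fin m → UnitAddCircle :=
  fun i => ∑ j, A i j • x j + b i

/-- the value `k · x` of the integral linear form `k` -/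
def form {m : ℕ} (k : Fin m → ℤ) (x : Fin m → UnitAddCircle) : UnitAddCircle := ∑ i, k i • x i

/-- `E` is a compact set and for every nonzero integer vector `k` with `k A = k` the numbers `k · b`, `b ∈ E`, are
irrational modulo one and form a set of measure zero. -/
def SmallTranslations {m : ℕ} (A : Matrix (Fin m) (Fin m) ℤ) (E : Set (Fin m → UnitAddCircle)) : Prop :=
  IsCompact E ∧ ∀ k : Fin m → ℤ, k ≠ 0 → Matrix.vecMul k A = k →
    volume (form k '' E) = 0 ∧ ∀ b ∈ E, ∀ t : ℝ, (t : UnitAddCircle) = form k b → Irrational t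

/-- `f` is multiplicative and bounded by one. -/
def IsBoundedMultiplicative (f : ℕ → ℂ) : Prop :=
  (∀ n, ‖f n‖ ≤ 1) ∧ ∀ a b : ℕ, a.Coprime b → f (a * b) = f a * f b

/-- The supremum of `|∑_{1 ≤ h ≤ H} f(n + h) F(T^{n+h} x)|` over all maps `T x = A x + b` with `b ∈ E` and all starting
points `x` of the torus. -/
noncomputable def windowSup {m : ℕ} (A : Matrix (Fin m) (Fin m) ℤ) (F : (Fin m → UnitAddCircle) → ℂ)
    (E : Set (Fin m → UnitAddCircle)) (f : ℕ → ℂ) (n H : ℕ) : ℝ :=
  ⨆ p : E × (Fin m → UnitAddCircle), ‖∑ h ∈ Icc 1 H, f (n + h) * F ((affineMap A p.1)^[n + h] p.2)‖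

/-- the Möbius function -/
noncomputable def mu (n : ℕ) : ℂ := ((ArithmeticFunction.moebius n : ℤ) : ℂ)

lemma mu_mult : IsBoundedMultiplicative mu := by
  constructor
  · intro n
    unfold mu
    rw [Complex.norm_intCast]
    have h1 := ArithmeticFunction.abs_moebius_le_one (n := n)
    exact_mod_cast h1
  · intro a b hab
    unfold mu
    rw [ArithmeticFunction.isMultiplicative_moebius.map_mul_of_coprime hab]
    push_cast
    ring

lemma windowSup_eq {m : ℕ} (A : Matrix (Fin m) (Fin m) ℤ) (F : (Fin m → UnitAddCircle) → ℂ)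
    (E : Set (Fin m → UnitAddCircle)) (f : ℕ → ℂ) (n H : ℕ) :
    windowSup A F E f n H = Pool.Agent.Helper44K9.FB.oSup A F E f n H := rfl

/-- short sums of the Möbius function -/
lemma mu_short (ε : ℝ) (hε : 0 < ε) : ∃ H₀ : ℕ, ∀ N H : ℕ, H₀ ≤ H → H ≤ N →
    ∑ n ∈ Icc 1 N, (1 / (n : ℝ)) * ‖∑ h ∈ Icc 1 H, mu (n + h)‖ ≤ ε * H * Real.log N := by
  obtain ⟨H₀, h⟩ := Pool.Agent.Results.MP_663568_nt.SmallFrequencySets.result 0 (ContinuousMap.const _ 1) 1 0
    (by norm_num) ε hε
  refine ⟨H₀, fun N H hH hN => ?_⟩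
  have h1 := (h N H hH hN Set.univ (fun n _ => ⟨{0}, by simp, fun g _ => ⟨0, by simp, by
    rw [Subsingleton.elim g 0, dist_self]; positivity⟩⟩)).1
  refine le_trans (le_of_eq ?_) h1
  refine sum_congr rfl fun n _ => ?_
  congr 1
  unfold Pool.Agent.Results.MP_663568_nt.SmallFrequencySets.windowSup
  simp only [ContinuousMap.const_apply, one_mul]
  have : Nonempty (↥(Set.univ : Set (Fin 0 → UnitAddCircle)) × (Fin 0 → UnitAddCircle)) := ⟨(⟨0, trivial⟩, 0)⟩
  rw [ciSup_const]
  rfl

/-- **Möbius disjointness in short intervals for unipotent affine maps.** Let `A` be a unipotent integer matrix, `F` a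
continuous function on the torus, `E` a compact set of translation vectors `b` such that for each nonzero integer
vector `k` with `k A = k` the numbers `k · b`, `b ∈ E`, are irrational and form a null set. Then for each `ε > 0` there
is `H₀` such that for all `N ≥ H ≥ H₀`
(1) `∑_{n ≤ N} (1/n) sup_{b ∈ E, x} |∑_{h ≤ H} μ(n+h) F(T^{n+h} x)| ≤ ε H log N`;
(2) the same holds for all multiplicative functions `f` bounded by one, uniformly, if `F` is replaced by `F - ∫ F`. -/
theorem result (m s : ℕ) (A : Matrix (Fin m) (Fin m) ℤ) (hA : (A - 1) ^ s = 0) (F : C(Fin m → UnitAddCircle, ℂ))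
    (E : Set (Fin m → UnitAddCircle)) (hE : SmallTranslations A E) (ε : ℝ) (hε : 0 < ε) :
    ∃ H₀ : ℕ, ∀ N H : ℕ, H₀ ≤ H → H ≤ N →
      ∑ n ∈ Icc 1 N, (1 / (n : ℝ)) * windowSup A F E mu n H ≤ ε * H * Real.log N ∧
      ∀ f : ℕ → ℂ, IsBoundedMultiplicative f →
        ∑ n ∈ Icc 1 N, (1 / (n : ℝ)) * windowSup A (fun x => F x - ∫ y, F y) E f n H ≤ ε * H * Real.log N := by
  have hE' : ∀ k : Fin m → ℤ, k ≠ 0 → Matrix.vecMul k A = k → volume (Pool.Agent.Helper44K9.FB.lf k '' E) = 0 ∧
      ∀ b ∈ E, addOrderOf (Pool.Agent.Helper44K9.FB.lf k b) = 0 := by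
    intro k hk hkA
    obtain ⟨h1, h2⟩ := hE.2 k hk hkA
    refine ⟨h1, fun b hb => ?_⟩
    obtain ⟨t, ht⟩ := QuotientAddGroup.mk_surjective (form k b)
    have h3 : Irrational t := h2 b hb t ht
    show addOrderOf (form k b) = 0
    rw [← ht]
    by_contra hne
    have h5 := addOrderOf_nsmul_eq_zero (t : UnitAddCircle)
    rw [← AddCircle.coe_nsmul, AddCircle.coe_eq_zero_iff] at h5
    obtain ⟨j, hj⟩ := h5
    apply h3
    refine ⟨(j : ℚ) / (addOrderOf (t : UnitAddCircle) : ℚ), ?_⟩
    push_cast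
    rw [div_eq_iff (by exact_mod_cast hne)]
    simp only [zsmul_eq_mul, mul_one, nsmul_eq_mul] at hj
    rw [hj]
    ring
  obtain ⟨H₁, h₁⟩ := Pool.Agent.Helper44K9.FB.fb hA F hE.1 hE' (ε / 2) (by positivity)
  set c : ℂ := ∫ y, F y with hc
  obtain ⟨H₂, h₂⟩ := mu_short (ε / (2 * (‖c‖ + 1))) (by positivity)
  refine ⟨H₁ + H₂, fun N H hH hN => ?_⟩
  have hlog : 0 ≤ Real.log N := Real.log_natCast_nonneg N
  have hHr : (0 : ℝ) ≤ H := Nat.cast_nonneg _
  refine ⟨?_, fun f hf => ?_⟩
  · have h3 := h₁ mu mu_mult N H (by omega) hN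
    have h4 := h₂ N H (by omega) hN
    have hpt : ∀ n, windowSup A F E mu n H ≤ Pool.Agent.Helper44K9.FB.oSup A (fun x => F x - c) E mu n H +
        ‖c‖ * ‖∑ h ∈ Icc 1 H, mu (n + h)‖ := by
      intro n
      have hbdd : BddAbove (Set.range fun p : E × (Fin m → UnitAddCircle) =>
          ‖∑ h ∈ Icc 1 H, mu (n + h) * (F ((Pool.Agent.Helper44K9.FB.aff A p.1)^[n + h] p.2) - c)‖) := by
        refine ⟨∑ h ∈ Icc 1 H, (‖F‖ + ‖c‖), ?_⟩
        rintro _ ⟨p, rfl⟩
        refine (norm_sum_le _ _).trans (sum_le_sum fun h _ => ?_)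
        rw [norm_mul]
        have e1 := mu_mult.1 (n + h)
        have e2 : ‖F ((Pool.Agent.Helper44K9.FB.aff A p.1)^[n + h] p.2) - c‖ ≤ ‖F‖ + ‖c‖ :=
          (norm_sub_le _ _).trans (add_le_add (F.norm_coe_le_norm _) le_rfl)
        calc _ ≤ 1 * ‖F ((Pool.Agent.Helper44K9.FB.aff A p.1)^[n + h] p.2) - c‖ :=
              mul_le_mul_of_nonneg_right e1 (norm_nonneg _)
          _ ≤ _ := by rw [one_mul]; exact e2
      have hnn : 0 ≤ Pool.Agent.Helper44K9.FB.oSup A (fun x => F x - c) E mu n H +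
          ‖c‖ * ‖∑ h ∈ Icc 1 H, mu (n + h)‖ :=
        add_nonneg (Real.iSup_nonneg fun _ => norm_nonneg _) (by positivity)
      refine Real.iSup_le (fun p => ?_) hnn
      have e3 : ∑ h ∈ Icc 1 H, mu (n + h) * F ((affineMap A p.1)^[n + h] p.2) =
          ∑ h ∈ Icc 1 H, mu (n + h) * (F ((Pool.Agent.Helper44K9.FB.aff A p.1)^[n + h] p.2) - c) +
            c * ∑ h ∈ Icc 1 H, mu (n + h) := by
        rw [mul_sum, ← sum_add_distrib]
        refine sum_congr rfl fun h _ => ?_
        show mu (n + h) * F ((Pool.Agent.Helper44K9.FB.aff A p.1)^[n + h] p.2) = _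
        ring
      rw [e3]
      refine (norm_add_le _ _).trans (add_le_add ?_ ?_)
      · exact le_ciSup hbdd p
      · rw [norm_mul]
    calc ∑ n ∈ Icc 1 N, (1 / (n : ℝ)) * windowSup A F E mu n H ≤
        ∑ n ∈ Icc 1 N, ((1 / (n : ℝ)) * Pool.Agent.Helper44K9.FB.oSup A (fun x => F x - c) E mu n H +
          ‖c‖ * ((1 / (n : ℝ)) * ‖∑ h ∈ Icc 1 H, mu (n + h)‖)) := by
          refine sum_le_sum fun n _ => ?_
          have := mul_le_mul_of_nonneg_left (hpt n) (show (0 : ℝ) ≤ 1 / n by positivity)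
          refine this.trans (le_of_eq ?_)
          ring
      _ ≤ ε / 2 * H * Real.log N + (‖c‖ + 1) * (ε / (2 * (‖c‖ + 1)) * H * Real.log N) := by
          rw [sum_add_distrib, ← mul_sum]
          refine add_le_add h3 ?_
          refine mul_le_mul (by linarith) h4 (sum_nonneg fun n _ => by positivity) (by positivity)
      _ = ε * H * Real.log N := by field_simp; ring
  · refine (h₁ f hf N H (by omega) hN).trans ?_
    have : 0 ≤ ε * H * Real.log N := by positivity
    linarith

end Pool.Agent.Results.MP_663568_nt.UnipotentAffineMaps
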