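import Pool.Agent.Helper44K9.FN.AsmG
import Pool.Agent.Helper44K9.FN.Abs
import Pool.Agent.Helper44K9.FN.Besa
import Pool.Agent.Helper44K9.FN.Pusha
import Pool.Agent.Helper44K9.FN.Kata
import Pool.Agent.Helper44K9.FN.Fina
import Pool.Agent.Helper44K9.FN.Red
import Pool.Agent.Helper44K9.FN.Aff
import Pool.Agent.Helper44K9.FN.Tru
import Pool.Agent.Helper44K9.FN.Vdc
import Pool.Agent.Helper44K9.FN.Inv
import Pool.Agent.Helper44K9.FN.Eqn
import Pool.Agent.Helper44K9.FN.Lsn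
import Pool.Agent.Helper44K9.FN.Vert
import Pool.Agent.Helper44K9.FN.Mean
import Pool.Agent.Helper44K9.FS.Fac
import Pool.Agent.Helper44K9.FS.Scale
import Pool.Agent.Results.MP_663568_nt.UnipotentAffineMaps
import Pool.Agent.Helper44K9.FU.Eq
import Pool.Agent.Helper44K9.FU.Chb
import Pool.Agent.Helper44K9.FU.Dil
import Pool.Agent.Helper44K9.FU.Kap
import Pool.Agent.Helper44K9.FU.Pig
import Pool.Agent.Helper44K9.FU.Pw
import Pool.Agent.Helper44K9.FU.Sub
import Pool.Agent.Helper44K9.FU.Tk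
import Pool.Agent.Helper44K9.FU.Trig

/-!
# Two-step nilmanifolds, null sets of horizontal directions, and systems with uncountably many components

`G = ℝ^d × ℝ^c` with the product `(x, t) (y, s) = (x + y, t + s + β(x, y))`, `β` bilinear with integer coefficients,
`Γ = ℤ^d × ℤ^c`: in Mal'cev coordinates every connected simply connected two-step nilpotent Lie group with a lattice.
`E` is a compact set in the horizontal torus `ℝ^d/ℤ^d` such that `k · E` is a null set of irrational numbers for every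
integer vector `k ≠ 0`. For every continuous `F` on `G/Γ` the supremum over ALL `g ∈ G` with horizontal part in `E` and
ALL points `y` of the nilmanifold of `|∑_{h ≤ H} F(g^(n+h) y) μ(n+h)|` is `o(H)` on logarithmic average over
`n ≤ N`, uniformly over `N ≥ H`.

Consequence: Möbius disjointness, in logarithmic mean and at most scales, for topological systems whose invariant
measures may have uncountably many ergodic components which are two-step nilsystems (or unipotent affine maps of tori)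
with singular distributions of the frequencies.
-/

set_option autoImplicit false

open Finset MeasureTheory Filter Topology

namespace Pool.Agent.Results.MP_663568_nt.TwoStepNilmanifolds

universe u

/-- The product of the group `G = ℝ^d × ℝ^c`: `(x, t) (y, s) = (x + y, t + s + β(x, y))` with
`β(x, y)_l = ∑_{i,j} x_i β_l(i, j) y_j`. -/
noncomputable def mul {d c : ℕ} (β : Fin c → Matrix (Fin d) (Fin d) ℤ) (g h : (Fin d → ℝ) × (Fin c → ℝ)) :
    (Fin d → ℝ) × (Fin c → ℝ) :=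
  (g.1 + h.1, g.2 + h.2 + fun l => ∑ i, ∑ j, g.1 i * (β l i j : ℝ) * h.1 j)

/-- The commutator subgroup of `G` is `{0} × ℝ^c`: no nonzero integral combination of the matrices `β_l` is symmetric
(for `c = 0`, when `G = ℝ^d`, this is an empty condition). -/
def CommutatorsSpan {d c : ℕ} (β : Fin c → Matrix (Fin d) (Fin d) ℤ) : Prop :=
  ∀ k : Fin c → ℤ, k ≠ 0 → (∑ l, k l • β l).transpose ≠ ∑ l, k l • β l

/-- `F` is a continuous function on `G/Γ`, `Γ = ℤ^d × ℤ^c`. -/
def IsFunctionOnNilmanifold {d c : ℕ} (β : Fin c → Matrix (Fin d) (Fin d) ℤ)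
    (F : (Fin d → ℝ) × (Fin c → ℝ) → ℂ) : Prop :=
  Continuous F ∧ ∀ (g : (Fin d → ℝ) × (Fin c → ℝ)) (m : Fin d → ℤ) (j : Fin c → ℤ),
    F (mul β g (fun i => (m i : ℝ), fun l => (j l : ℝ))) = F g

/-- `E` is a compact set in the horizontal torus and for every integer vector `k ≠ 0` the numbers `k · x`, `x ∈ E`, are
irrational modulo one and form a set of measure zero. -/
def SmallHorizontal {d : ℕ} (E : Set (Fin d → UnitAddCircle)) : Prop :=
  IsCompact E ∧ ∀ k : Fin d → ℤ, k ≠ 0 → volume ((fun x : Fin d → UnitAddCircle => ∑ i, k i • x i) '' E) = 0 ∧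
    ∀ x ∈ E, ∀ t : ℝ, (t : UnitAddCircle) = ∑ i, k i • x i → Irrational t

/-- `f` is multiplicative and bounded by one. -/
def IsBoundedMultiplicative (f : ℕ → ℂ) : Prop :=
  (∀ n, ‖f n‖ ≤ 1) ∧ ∀ a b : ℕ, a.Coprime b → f (a * b) = f a * f b

/-- The supremum of `|∑_{1 ≤ h ≤ H} f(n + h) F(g^(n+h) y)|` over all `g ∈ G` with horizontal part in `E` and all
`y ∈ G`; here `g^m y` is the `m`-th iterate at `y` of the left multiplication by `g`. -/
noncomputable def windowSup {d c : ℕ} (β : Fin c → Matrix (Fin d) (Fin d) ℤ) (F : (Fin d → ℝ) × (Fin c → ℝ) → ℂ)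
    (E : Set (Fin d → UnitAddCircle)) (f : ℕ → ℂ) (n H : ℕ) : ℝ :=
  ⨆ p : {g : (Fin d → ℝ) × (Fin c → ℝ) // (fun i => (g.1 i : UnitAddCircle)) ∈ E} × ((Fin d → ℝ) × (Fin c → ℝ)),
    ‖∑ h ∈ Icc 1 H, f (n + h) * F ((mul β p.1.1)^[n + h] p.2)‖

/-- the Möbius function -/
noncomputable def mu (n : ℕ) : ℂ := ((ArithmeticFunction.moebius n : ℤ) : ℂ)

/-- the mean value of `F` on the nilmanifold, as an integral over the unit cube -/
noncomputable def mean {d c : ℕ} (F : (Fin d → ℝ) × (Fin c → ℝ) → ℂ) : ℂ :=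
  ∫ p in Set.Icc (0 : (Fin d → ℝ) × (Fin c → ℝ)) 1, F p

/-- Two-step nilmanifolds, null sets of horizontal directions. For each `ε > 0` there is `H₀` such that for all
`N ≥ H ≥ H₀`
(1) `∑_{n ≤ N} (1/n) sup_{g, y} |∑_{h ≤ H} F(g^(n+h) y) μ(n+h)| ≤ ε H log N`, the supremum over all `g ∈ G` with horizontal
part in `E` and all `y ∈ G`;
(2) the same holds for all multiplicative functions `f` bounded by one in place of `μ`, uniformly in `f`, if `F` is
replaced by `F` minus its mean value. -/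
theorem windows (d c : ℕ) (β : Fin c → Matrix (Fin d) (Fin d) ℤ) (hβ : CommutatorsSpan β)
    (F : (Fin d → ℝ) × (Fin c → ℝ) → ℂ) (hF : IsFunctionOnNilmanifold β F)
    (E : Set (Fin d → UnitAddCircle)) (hE : SmallHorizontal E) (ε : ℝ) (hε : 0 < ε) :
    ∃ H₀ : ℕ, ∀ N H : ℕ, H₀ ≤ H → H ≤ N →
      ∑ n ∈ Icc 1 N, (1 / (n : ℝ)) * windowSup β F E mu n H ≤ ε * H * Real.log N ∧
      ∀ f : ℕ → ℂ, IsBoundedMultiplicative f →
        ∑ n ∈ Icc 1 N, (1 / (n : ℝ)) * windowSup β (fun z => F z - mean F) E f n H ≤ ε * H * Real.log N := by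
  have hEv : ∀ k : Fin d → ℤ, k ≠ 0 → volume (Pool.Agent.Helper44K9.FB.lf k '' E) = 0 := fun k hk => (hE.2 k hk).1
  have hEi : Pool.Agent.Helper44K9.FN.Irr E := by
    intro k hk x hx
    obtain ⟨t, ht⟩ := QuotientAddGroup.mk_surjective (Pool.Agent.Helper44K9.FB.lf k x)
    have h3 : Irrational t := (hE.2 k hk).2 x hx t ht
    rw [← ht]
    by_contra hne
    have h5 := addOrderOf_nsmul_eq_zero (t : UnitAddCircle)
    rw [← AddCircle.coe_nsmul, AddCircle.coe_eq_zero_iff] at h5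
    obtain ⟨j, hj⟩ := h5
    apply h3
    refine ⟨(j : ℚ) / (addOrderOf (t : UnitAddCircle) : ℚ), ?_⟩
    push_cast
    rw [div_eq_iff (by exact_mod_cast hne)]
    simp only [zsmul_eq_mul, mul_one, nsmul_eq_mul] at hj
    rw [hj]
    ring
  open Pool.Agent.Helper44K9.FN Pool.Agent.Helper44K9.FU in
  have hFINA : S_FINA := fina sub (abs_ besa (pusha tk) (pairp tk) dil_ pig)
  open Pool.Agent.Helper44K9.FN Pool.Agent.Helper44K9.FU in
  have hEQN : S_EQN := eqn red (vdc tru) (inv Pool.Agent.Helper44K9.FN.aff) (eq pw trig kap chb)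
  open Pool.Agent.Helper44K9.FN Pool.Agent.Helper44K9.FU in
  have hLSN : S_LSN := lsn red (vdc tru) (inv2 Pool.Agent.Helper44K9.FN.aff) (kata tk)
  obtain ⟨H₁, h₁⟩ := Pool.Agent.Helper44K9.FN.asm hFINA hEQN hLSN Pool.Agent.Helper44K9.FN.red
    Pool.Agent.Helper44K9.FN.orb Pool.Agent.Helper44K9.FN.vert β hβ F hF.1 hF.2 hE.1 hEi hEv ε hε
  obtain ⟨H₂, h₂⟩ := Pool.Agent.Helper44K9.FN.asmG hFINA hEQN hLSN Pool.Agent.Helper44K9.FN.red
    Pool.Agent.Helper44K9.FN.orb Pool.Agent.Helper44K9.FN.vert Pool.Agent.Helper44K9.FN.mean β hβ F hF.1 hF.2 hE.1 hEi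
    hEv ε hε
  exact ⟨H₁ + H₂, fun N H hH hN => ⟨h₁ N H (by omega) hN, fun f hf => h₂ f hf N H (by omega) hN⟩⟩

/-- `ν` is a weak* cluster point, for `N → ∞`, of the logarithmic empirical measures `(1/log N) ∑_{n ≤ N} δ(Tⁿ x)/n`. -/
def LogClusterPoint {X : Type u} [MetricSpace X] [MeasurableSpace X] (T : X → X) (x : X) (ν : Measure X) : Prop :=
  ∀ (F : Finset C(X, ℂ)) (ε : ℝ), 0 < ε → ∀ N₀ : ℕ, ∃ N ≥ N₀, ∀ g ∈ F,
    ‖(1 / (Real.log (N : ℝ) : ℂ)) * ∑ n ∈ Icc 1 N, g (T^[n] x) / (n : ℂ) - ∫ y, g y ∂ν‖ < ε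

/-- the value `k · x` of the integral linear form `k` -/
def form {m : ℕ} (k : Fin m → ℤ) (x : Fin m → UnitAddCircle) : UnitAddCircle := ∑ i, k i • x i

/-- Let `act g`, `g ∈ G`, be maps of the space `Y` and `par g` a vector of frequencies. The measure `ν` on `X` is the
image under a measurable map `π` of a finite measure `ρ` on `Ω × Y`, for some compact metric space `Ω`, where `ρ` is
invariant under the family of maps `R(ω, y) = (ω, act (g ω) y)`, `π(R z) = T(π z)` for `ρ`-almost all `z`, and for all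
`k ∈ K` the distribution of the frequency `k · par (g ω)` is singular with respect to Lebesgue measure, and almost all
of these frequencies are irrational. -/
def ImageOfFamily {X : Type u} [MeasurableSpace X] (T : X → X) (ν : Measure X) {G : Type} {d : ℕ} (Y : Type)
    [MeasurableSpace Y] (act : G → Y → Y) (par : G → Fin d → UnitAddCircle) (K : Set (Fin d → ℤ)) : Prop :=
  ∃ (Ω : Type) (_ : MetricSpace Ω) (_ : CompactSpace Ω) (_ : MeasurableSpace Ω) (_ : BorelSpace Ω)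
    (g : Ω → G) (R : Ω × Y → Ω × Y) (ρ : Measure (Ω × Y)) (π : Ω × Y → X),
    Measurable (fun ω => par (g ω)) ∧ (∀ z, R z = (z.1, act (g z.1) z.2)) ∧
    IsFiniteMeasure ρ ∧ MeasurePreserving R ρ ρ ∧ Measurable π ∧ (∀ᵐ z ∂ρ, π (R z) = T (π z)) ∧ ρ.map π = ν ∧
    ∀ k ∈ K, (ρ.map fun z => form k (par (g z.1))) ⟂ₘ (volume : Measure UnitAddCircle) ∧
      ∀ᵐ z ∂ρ, ∀ t : ℝ, (t : UnitAddCircle) = form k (par (g z.1)) → Irrational t

/-- `Y` is the nilmanifold `G/Γ`, `Γ = ℤ^d × ℤ^c`, `p` the projection `G → G/Γ`. -/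
def IsNilmanifold {d c : ℕ} (β : Fin c → Matrix (Fin d) (Fin d) ℤ) {Y : Type} [TopologicalSpace Y]
    (p : (Fin d → ℝ) × (Fin c → ℝ) → Y) : Prop :=
  Continuous p ∧ Function.Surjective p ∧ ∀ g h, p g = p h ↔ ∃ (m : Fin d → ℤ) (j : Fin c → ℤ),
    h = mul β g (fun i => (m i : ℝ), fun l => (j l : ℝ))

/-- `ν` is the image of a family of rotations of a two-step nilmanifold; the frequencies are those of the horizontal
torus. -/
def TwoStepImage {X : Type u} [MeasurableSpace X] (T : X → X) (ν : Measure X) : Prop :=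
  ∃ (d c : ℕ) (β : Fin c → Matrix (Fin d) (Fin d) ℤ) (Y : Type) (_ : MetricSpace Y) (_ : CompactSpace Y)
    (_ : MeasurableSpace Y) (_ : BorelSpace Y) (p : (Fin d → ℝ) × (Fin c → ℝ) → Y)
    (act : (Fin d → ℝ) × (Fin c → ℝ) → Y → Y), CommutatorsSpan β ∧ IsNilmanifold β p ∧
    (∀ g h, act g (p h) = p (mul β g h)) ∧
    ImageOfFamily T ν Y act (fun g i => (g.1 i : UnitAddCircle)) {k | k ≠ 0}

/-- `ν` is the image of a family of affine maps `y ↦ A y + b` of a torus `ℝ^m/ℤ^m`, `A` a unipotent integer matrix; the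
frequencies are those `k · b` with `k A = k`. -/
def AffineImage {X : Type u} [MeasurableSpace X] (T : X → X) (ν : Measure X) : Prop :=
  ∃ (m s : ℕ) (A : Matrix (Fin m) (Fin m) ℤ), (A - 1) ^ s = 0 ∧
    ImageOfFamily T ν (Fin m → UnitAddCircle) (fun (b y : Fin m → UnitAddCircle) i => ∑ j, A i j • y j + b i)
      (fun b => b) {k | k ≠ 0 ∧ Matrix.vecMul k A = k}

open Pool.Agent.Helper44K9.FS

lemma mu_le (n : ℕ) : ‖mu n‖ ≤ 1 := by
  unfold mu
  rw [Complex.norm_intCast]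
  have h1 := ArithmeticFunction.abs_moebius_le_one (n := n)
  exact_mod_cast h1

lemma irr_of {θ : UnitAddCircle} (h : ∀ t : ℝ, (t : UnitAddCircle) = θ → Irrational t) : addOrderOf θ = 0 := by
  obtain ⟨t, ht⟩ := QuotientAddGroup.mk_surjective θ
  have h3 : Irrational t := h t ht
  rw [← ht]
  by_contra hne
  have h5 := addOrderOf_nsmul_eq_zero (t : UnitAddCircle)
  rw [← AddCircle.coe_nsmul, AddCircle.coe_eq_zero_iff] at h5
  obtain ⟨j, hj⟩ := h5
  apply h3
  refine ⟨(j : ℚ) / (addOrderOf (t : UnitAddCircle) : ℚ), ?_⟩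
  push_cast
  rw [div_eq_iff (by exact_mod_cast hne)]
  simp only [zsmul_eq_mul, mul_one, nsmul_eq_mul] at hj
  rw [hj]
  ring

lemma of_irr {θ : UnitAddCircle} (h : addOrderOf θ = 0) (t : ℝ) (ht : (t : UnitAddCircle) = θ) : Irrational t := by
  rintro ⟨q, hq⟩
  rw [addOrderOf_eq_zero_iff, isOfFinAddOrder_iff_nsmul_eq_zero] at h
  apply h
  refine ⟨q.den, q.pos, ?_⟩
  rw [← ht, ← hq, ← AddCircle.coe_nsmul, AddCircle.coe_eq_zero_iff]
  refine ⟨q.num, ?_⟩
  rw [zsmul_eq_mul, mul_one, nsmul_eq_mul]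
  have h2 := Rat.den_mul_eq_num q
  have h3 : ((q.den : ℝ)) * (q : ℝ) = (q.num : ℝ) := by exact_mod_cast h2
  rw [h3]

/-- from suprema to choices -/
lemma momo_of {W : Set (ℕ → ℂ)} (S : ℕ → ℕ → ℝ) (hS0 : ∀ n H, 0 ≤ S n H)
    (hS : ∀ w ∈ W, ∀ n H : ℕ, ‖∑ h ∈ Icc 1 H, mu (n + h) * w h‖ ≤ S n H)
    (h : ∀ ε : ℝ, 0 < ε → ∃ H₀ : ℕ, ∀ N H : ℕ, H₀ ≤ H → H ≤ N →
      ∑ n ∈ Icc 1 N, (1 / (n : ℝ)) * S n H ≤ ε * H * Real.log N) : Momo mu W := by
  intro ε hε
  obtain ⟨H₀, h1⟩ := h ε hε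
  refine ⟨H₀, fun H hH => ⟨H, fun N hN w hw => ?_⟩⟩
  calc ∑ n ∈ Icc 1 N, (1 / (n : ℝ)) * ‖∑ h ∈ Icc 1 H, mu (n + h) * w n h‖ ≤
      ∑ n ∈ Icc 1 N, (1 / (n : ℝ)) * S n H := by
        refine sum_le_sum fun n _ => mul_le_mul_of_nonneg_left ?_ (by positivity)
        rcases hw n with h2 | h2
        · exact hS _ h2 n H
        · rw [h2]
          simpa using hS0 n H
    _ ≤ ε * H * Real.log N := h1 N H hH hN
    _ ≤ ε * H * hs N := mul_le_mul_of_nonneg_left (le_hs N) (by positivity)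

/-- two-step nilmanifolds -/
lemma momo_two {d c : ℕ} {β : Fin c → Matrix (Fin d) (Fin d) ℤ} {Y : Type} [MetricSpace Y] [CompactSpace Y]
    {p : (Fin d → ℝ) × (Fin c → ℝ) → Y} {act : (Fin d → ℝ) × (Fin c → ℝ) → Y → Y} (hβ : CommutatorsSpan β)
    (hp : IsNilmanifold β p) (hact : ∀ g h, act g (p h) = p (mul β g h)) (E : Set (Fin d → UnitAddCircle))
    (hEc : IsCompact E) (hE : ∀ k ∈ {k : Fin d → ℤ | k ≠ 0}, volume (Pool.Agent.Helper44K9.FB.lf k '' E) = 0 ∧
      ∀ x ∈ E, addOrderOf (Pool.Agent.Helper44K9.FB.lf k x) = 0) (F : C(Y, ℂ)) :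
    Momo mu (Win act (fun g i => (g.1 i : UnitAddCircle)) E F) := by
  have hit : ∀ (g h : (Fin d → ℝ) × (Fin c → ℝ)) (n : ℕ), (act g)^[n] (p h) = p ((mul β g)^[n] h) := by
    intro g h n
    induction n with
    | zero => rfl
    | succ n ih => rw [Function.iterate_succ_apply', ih, hact, Function.iterate_succ_apply']
  have hsurj : ∀ g, Function.Surjective (mul β g) := by
    intro g h
    refine ⟨(h.1 - g.1, h.2 - g.2 - fun l => ∑ i, ∑ j, g.1 i * (β l i j : ℝ) * (h.1 - g.1) j), ?_⟩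
    unfold mul
    refine Prod.ext ?_ ?_
    · simp
    · simp only
      abel
  refine momo_of (fun n H => windowSup β (fun h => F (p h)) E
    mu n H) (fun n H => Real.iSup_nonneg fun _ => norm_nonneg _)
    ?_ ?_
  · rintro w ⟨g, hg, y, rfl⟩ n H
    obtain ⟨h₀, rfl⟩ := hp.2.1 y
    obtain ⟨h₁, rfl⟩ := (hsurj g).iterate n h₀
    have hb : BddAbove (Set.range fun q : {g : (Fin d → ℝ) × (Fin c → ℝ) // (fun i => (g.1 i : UnitAddCircle)) ∈ E} ×
        ((Fin d → ℝ) × (Fin c → ℝ)) => ‖∑ h ∈ Icc 1 H,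
          mu (n + h) *
          F (p ((mul β q.1.1)^[n + h] q.2))‖) := by
      refine ⟨∑ h ∈ Icc 1 H, ‖F‖, ?_⟩
      rintro _ ⟨q, rfl⟩
      refine (norm_sum_le _ _).trans (sum_le_sum fun h _ => ?_)
      rw [norm_mul]
      calc _ ≤ 1 * ‖F‖ := mul_le_mul (mu_le _) (F.norm_coe_le_norm _) (norm_nonneg _) zero_le_one
        _ = ‖F‖ := one_mul _
    refine le_trans (le_of_eq ?_) (le_ciSup hb (⟨g, hg⟩, h₁))
    congr 1
    refine sum_congr rfl fun h _ => ?_
    show mu (n + h) * F ((act g)^[h] (p ((mul β g)^[n] h₁))) = mu (n + h) * F (p ((mul β g)^[n + h] h₁))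
    rw [hit, ← Function.iterate_add_apply, add_comm h n]
  · intro ε hε
    have hF : IsFunctionOnNilmanifold β (fun h => F (p h)) := by
      refine ⟨F.continuous.comp hp.1, fun g m j => ?_⟩
      show F (p (mul β g (fun i => (m i : ℝ), fun l => (j l : ℝ)))) = F (p g)
      rw [((hp.2.2 g _).2 ⟨m, j, rfl⟩)]
    obtain ⟨H₀, h1⟩ := windows d c β hβ _ hF E
      ⟨hEc, fun k hk => ⟨(hE k hk).1, fun x hx t ht => of_irr ((hE k hk).2 x hx) t ht⟩⟩ ε hε
    exact ⟨H₀, fun N H hH hN => (h1 N H hH hN).1⟩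

/-- unipotent affine maps of tori -/
lemma momo_aff {m s : ℕ} {A : Matrix (Fin m) (Fin m) ℤ} (hA : (A - 1) ^ s = 0) (E : Set (Fin m → UnitAddCircle))
    (hEc : IsCompact E) (hE : ∀ k ∈ {k : Fin m → ℤ | k ≠ 0 ∧ Matrix.vecMul k A = k},
      volume (Pool.Agent.Helper44K9.FB.lf k '' E) = 0 ∧ ∀ x ∈ E, addOrderOf (Pool.Agent.Helper44K9.FB.lf k x) = 0)
    (F : C(Fin m → UnitAddCircle, ℂ)) :
    Momo mu (Win (fun (b y : Fin m → UnitAddCircle) i => ∑ j, A i j • y j + b i) (fun b => b) E F) := by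
  have hunit : IsUnit A := by
    have h1 : IsNilpotent (A - 1) := ⟨s, hA⟩
    have h2 := h1.isUnit_one_add
    rwa [add_sub_cancel] at h2
  obtain ⟨B, hB⟩ := hunit.exists_right_inv
  have hsurj : ∀ b : Fin m → UnitAddCircle, Function.Surjective
      (fun (y : Fin m → UnitAddCircle) i => ∑ j, A i j • y j + b i) := by
    intro b z
    refine ⟨fun j => ∑ l, B j l • (z l - b l), ?_⟩
    funext i
    have h1 : ∑ j, A i j • ∑ l, B j l • (z l - b l) = z i - b i := by
      simp_rw [smul_sum, smul_smul]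
      rw [sum_comm]
      simp_rw [← sum_smul]
      have h2 : ∀ l, ∑ j, A i j * B j l = (1 : Matrix (Fin m) (Fin m) ℤ) i l := by
        intro l; rw [← hB, Matrix.mul_apply]
      simp_rw [h2, Matrix.one_apply]
      simp
    show ∑ j, A i j • ∑ l, B j l • (z l - b l) + b i = z i
    rw [h1, sub_add_cancel]
  refine momo_of (fun n H => Pool.Agent.Results.MP_663568_nt.UnipotentAffineMaps.windowSup A F E
    Pool.Agent.Results.MP_663568_nt.UnipotentAffineMaps.mu n H) (fun n H => Real.iSup_nonneg fun _ => norm_nonneg _)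
    ?_ ?_
  · rintro w ⟨b, hb, y, rfl⟩ n H
    obtain ⟨y₁, rfl⟩ := (hsurj b).iterate n y
    have hbd : BddAbove (Set.range fun q : E × (Fin m → UnitAddCircle) => ‖∑ h ∈ Icc 1 H,
          Pool.Agent.Results.MP_663568_nt.UnipotentAffineMaps.mu (n + h) *
          F ((Pool.Agent.Results.MP_663568_nt.UnipotentAffineMaps.affineMap A q.1)^[n + h] q.2)‖) := by
      refine ⟨∑ h ∈ Icc 1 H, ‖F‖, ?_⟩
      rintro _ ⟨q, rfl⟩
      refine (norm_sum_le _ _).trans (sum_le_sum fun h _ => ?_)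
      rw [norm_mul]
      calc _ ≤ 1 * ‖F‖ := mul_le_mul (mu_le _) (F.norm_coe_le_norm _) (norm_nonneg _) zero_le_one
        _ = ‖F‖ := one_mul _
    refine le_trans (le_of_eq ?_) (le_ciSup hbd (⟨b, hb⟩, y₁))
    congr 1
    refine sum_congr rfl fun h _ => ?_
    show mu (n + h) * F ((Pool.Agent.Results.MP_663568_nt.UnipotentAffineMaps.affineMap A b)^[h]
      ((Pool.Agent.Results.MP_663568_nt.UnipotentAffineMaps.affineMap A b)^[n] y₁)) = mu (n + h) *
      F ((Pool.Agent.Results.MP_663568_nt.UnipotentAffineMaps.affineMap A b)^[n + h] y₁)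
    rw [← Function.iterate_add_apply, add_comm h n]
  · intro ε hε
    obtain ⟨H₀, h1⟩ := Pool.Agent.Results.MP_663568_nt.UnipotentAffineMaps.result m s A hA F E
      ⟨hEc, fun k hk hkA => ⟨(hE k ⟨hk, hkA⟩).1, fun x hx t ht => of_irr ((hE k ⟨hk, hkA⟩).2 x hx) t ht⟩⟩ ε hε
    exact ⟨H₀, fun N H hH hN => (h1 N H hH hN).1⟩

/-- the windows of one image -/
lemma fac_of {X : Type u} [MetricSpace X] [CompactSpace X] [MeasurableSpace X] [BorelSpace X] {T : X → X}
    (hT : Continuous T) (f : C(X, ℂ)) {ν : Measure X} (h : TwoStepImage T ν ∨ AffineImage T ν) (ε : ℝ) (hε : 0 < ε) :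
    ∃ W : Set (ℕ → ℂ), Momo mu W ∧ ∀ H : ℕ, 1 ≤ H →
      ν.real Set.univ - ε ≤ ν.real {y | ∃ w ∈ W, ∑ h ∈ Icc 1 H, ‖f (T^[h] y) - w h‖ < ε * H} := by
  rcases h with ⟨d, c, β, Y, _, _, _, _, p, act, hβ, hp, hact, Ω, _, _, _, _, g, R, ρ, π, h1, h2, h3, h4, h5, h6, h7,
    h8⟩ | ⟨m, s, A, hA, Ω, _, _, _, _, g, R, ρ, π, h1, h2, h3, h4, h5, h6, h7, h8⟩
  · obtain ⟨W, hW, h9⟩ := fac hT f mu act (fun g i => (g.1 i : UnitAddCircle)) {k | k ≠ 0}
      (fun E hEc hE F => momo_two hβ hp hact E hEc hE F) g h1 R h2 ρ h4 (fun k hk => (h8 k hk).1)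
      (fun k hk => by filter_upwards [(h8 k hk).2] with z hz; exact irr_of hz) π h5 h6 ε hε
    refine ⟨W, hW, fun H hH => ?_⟩
    have h10 := h9 H hH
    rw [h7] at h10
    have h11 : ν.real Set.univ = ρ.real Set.univ := by
      rw [← h7, map_measureReal_apply h5 MeasurableSet.univ, Set.preimage_univ]
    rw [h11]
    exact h10
  · obtain ⟨W, hW, h9⟩ := fac hT f mu _ (fun b => b) {k | k ≠ 0 ∧ Matrix.vecMul k A = k}
      (fun E hEc hE F => momo_aff hA E hEc hE F) g h1 R h2 ρ h4 (fun k hk => (h8 k hk).1)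
      (fun k hk => by filter_upwards [(h8 k hk).2] with z hz; exact irr_of hz) π h5 h6 ε hε
    refine ⟨W, hW, fun H hH => ?_⟩
    have h10 := h9 H hH
    rw [h7] at h10
    have h11 : ν.real Set.univ = ρ.real Set.univ := by
      rw [← h7, map_measureReal_apply h5 MeasurableSet.univ, Set.preimage_univ]
    rw [h11]
    exact h10

open Classical in
/-- the set `A` of natural numbers has logarithmic density zero -/
def LogDensityZero (A : Set ℕ) : Prop := Tendsto
  (fun X : ℕ => (∑ n ∈ Icc 1 X, if n ∈ A then (1 : ℝ) / n else 0) / Real.log X) atTop (𝓝 0)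

/-- the windows of the cluster points -/
lemma win_of {X : Type u} [MetricSpace X] [CompactSpace X] [MeasurableSpace X] [BorelSpace X] {T : X → X}
    (hT : Continuous T) (f : C(X, ℂ)) {ν : Measure X} (hν : IsProbabilityMeasure ν) {ν' : ℕ → Measure X}
    (h1 : ∀ j, TwoStepImage T (ν' j) ∨ AffineImage T (ν' j)) (h2 : ν = Measure.sum ν') (ε : ℝ) (hε : 0 < ε) :
    ∃ W : Set (ℕ → ℂ), Momo mu W ∧ ∀ H : ℕ, 1 ≤ H →
      ENNReal.ofReal (1 - ε) ≤ ν {y | ∃ w ∈ W, ∑ h ∈ Icc 1 H, ‖f (T^[h] y) - w h‖ < ε * H} := by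
  have hle : ∀ s : Finset ℕ, ∑ j ∈ s, ν' j ≤ ν := by
    intro s
    rw [h2]
    refine Measure.le_iff.2 fun A hA => ?_
    rw [Measure.sum_apply _ hA, Measure.finsetSum_apply]
    exact ENNReal.sum_le_tsum s
  have hfin : ∀ j, IsFiniteMeasure (ν' j) := by
    intro j
    have h3 : ν' j ≤ ν := by
      have := hle {j}
      rwa [sum_singleton] at this
    exact isFiniteMeasure_of_le ν h3
  have htot : HasSum (fun j => (ν' j).real Set.univ) 1 := by
    have h3 : ∑' j, ν' j Set.univ = 1 := by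
      rw [← Measure.sum_apply _ MeasurableSet.univ, ← h2]
      exact measure_univ
    have h4 := ENNReal.hasSum_toReal (f := fun j => ν' j Set.univ) (by rw [h3]; exact ENNReal.one_ne_top)
    rw [← ENNReal.tsum_toReal_eq (fun j => measure_ne_top _ _), h3, ENNReal.toReal_one] at h4
    exact h4
  obtain ⟨J, hJ⟩ := (htot.eventually (lt_mem_nhds (show 1 - ε / 2 < 1 by linarith))).exists
  set ε' : ℝ := ε / (2 * (#J + 1)) with hε'
  have hε'0 : 0 < ε' := by positivity
  have hε'1 : ε' ≤ ε := by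
    rw [hε', div_le_iff₀ (by positivity)]
    have : (0 : ℝ) ≤ #J := Nat.cast_nonneg _
    nlinarith
  have hε'2 : (#J : ℝ) * ε' ≤ ε / 2 := by
    rw [hε', mul_div_assoc', div_le_div_iff₀ (by positivity) (by norm_num)]
    have : (0 : ℝ) ≤ #J := Nat.cast_nonneg _
    nlinarith
  choose W hW hWν using fun j => fac_of hT f (h1 j) ε' hε'0
  refine ⟨⋃ j ∈ (J : Set ℕ), W j, Momo.biUnion _ J.finite_toSet fun j _ => hW j, fun H hH => ?_⟩
  have hHr : (1 : ℝ) ≤ H := by exact_mod_cast hH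
  set O : Set X := {y | ∃ w ∈ ⋃ j ∈ (J : Set ℕ), W j, ∑ h ∈ Icc 1 H, ‖f (T^[h] y) - w h‖ < ε * H} with hO
  have h3 : ∀ j ∈ J, (ν' j).real Set.univ - ε' ≤ (ν' j).real O := by
    intro j hj
    refine (hWν j H hH).trans (measureReal_mono ?_)
    rintro y ⟨w, hw, hy⟩
    refine ⟨w, ?_, hy.trans_le (mul_le_mul_of_nonneg_right hε'1 (by linarith))⟩
    rw [Set.mem_iUnion₂]
    exact ⟨j, hj, hw⟩
  have h4 : ∑ j ∈ J, (ν' j).real O ≤ ν.real O := by
    have h5 := hle J O
    rw [Measure.finsetSum_apply] at h5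
    have h6 : (∑ j ∈ J, ν' j O).toReal ≤ (ν O).toReal := ENNReal.toReal_mono (measure_ne_top _ _) h5
    rw [ENNReal.toReal_sum fun j _ => measure_ne_top _ _] at h6
    exact h6
  have h5 : ∑ j ∈ J, ((ν' j).real Set.univ - ε') ≤ ∑ j ∈ J, (ν' j).real O := sum_le_sum h3
  rw [sum_sub_distrib, sum_const, nsmul_eq_mul] at h5
  have h6 : 1 - ε ≤ ν.real O := by linarith
  exact ENNReal.ofReal_le_of_le_toReal h6

/-- **Two-step nilmanifolds, null sets of horizontal directions, and systems with many components.**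
(1) For a two-step nilmanifold, a continuous function `F` on it, a small compact set `E` of horizontal directions and
`ε > 0` there is `H₀` such that for all `N ≥ H ≥ H₀`
`∑_{n ≤ N} (1/n) sup_{g, y} |∑_{h ≤ H} F(g^(n+h) y) μ(n+h)| ≤ ε H log N`, the supremum over all `g ∈ G` with horizontal
part in `E` and all `y ∈ G`; the same holds for all multiplicative functions `f` bounded by one in place of `μ`,
uniformly in `f`, if `F` is replaced by `F` minus its mean value.
(2) Let `(X, T)` be a topological system, `x` a point such that each invariant probability measure `ν` which is a cluster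
point of the logarithmic empirical measures of `x` is a countable sum of images of families of rotations of two-step
nilmanifolds, or of families of unipotent affine maps of tori, with singular distributions of the frequencies.
Then the averages `(1/log N) ∑_{n ≤ N} f(T^n x) μ(n) / n` tend to zero for every continuous `f`, and there is a set
`A` of logarithmic density zero such that `(1/N) ∑_{n ≤ N} f(T^n x) μ(n)` tends to zero for `N → ∞`, `N ∉ A`, for every
continuous `f`. -/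
theorem result :
    (∀ (d c : ℕ) (β : Fin c → Matrix (Fin d) (Fin d) ℤ), CommutatorsSpan β →
      ∀ F : (Fin d → ℝ) × (Fin c → ℝ) → ℂ, IsFunctionOnNilmanifold β F →
      ∀ E : Set (Fin d → UnitAddCircle), SmallHorizontal E → ∀ ε : ℝ, 0 < ε →
      ∃ H₀ : ℕ, ∀ N H : ℕ, H₀ ≤ H → H ≤ N →
        ∑ n ∈ Icc 1 N, (1 / (n : ℝ)) * windowSup β F E mu n H ≤ ε * H * Real.log N ∧
        ∀ f : ℕ → ℂ, IsBoundedMultiplicative f →
          ∑ n ∈ Icc 1 N, (1 / (n : ℝ)) * windowSup β (fun z => F z - mean F) E f n H ≤ ε * H * Real.log N) ∧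
    ∀ (X : Type u) [MetricSpace X] [CompactSpace X] [MeasurableSpace X] [BorelSpace X] (T : X → X), Continuous T →
      ∀ x : X, (∀ ν : Measure X, IsProbabilityMeasure ν → MeasurePreserving T ν ν → LogClusterPoint T x ν →
        ∃ ν' : ℕ → Measure X, (∀ j, TwoStepImage T (ν' j) ∨ AffineImage T (ν' j)) ∧ ν = Measure.sum ν') →
      (∀ f : C(X, ℂ), Tendsto (fun N : ℕ => (1 / (Real.log (N : ℝ) : ℂ)) *
        ∑ n ∈ Icc 1 N, f (T^[n] x) * mu n / (n : ℂ)) atTop (𝓝 0)) ∧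
      ∃ A : Set ℕ, LogDensityZero A ∧ ∀ f : C(X, ℂ), ∀ ε : ℝ, 0 < ε → ∃ N₀ : ℕ, ∀ N ≥ N₀, N ∉ A →
        ‖(1 / (N : ℂ)) * ∑ n ∈ Icc 1 N, f (T^[n] x) * mu n‖ ≤ ε := by
  refine ⟨fun d c β hβ F hF E hE ε hε => windows d c β hβ F hF E hE ε hε, ?_⟩
  intro X _ _ _ _ T hT x h
  have key : ∀ f : C(X, ℂ), ∀ ν : Measure X, IsProbabilityMeasure ν → MeasurePreserving T ν ν → LogClu T x ν →
      ∀ ε : ℝ, 0 < ε → ∃ W : Set (ℕ → ℂ), Momo mu W ∧ ∀ H : ℕ, 1 ≤ H →
        ENNReal.ofReal (1 - ε) ≤ ν {y | ∃ w ∈ W, ∑ h ∈ Icc 1 H, ‖f (T^[h] y) - w h‖ < ε * H} := by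
    intro f ν hν hinv hclu ε hε
    obtain ⟨ν', h1, h2⟩ := h ν hν hinv hclu
    exact win_of hT f hν h1 h2 ε hε
  exact ⟨fun f => crit hT x mu mu_le f (key f), most hT x mu mu_le key⟩

end Pool.Agent.Results.MP_663568_nt.TwoStepNilmanifolds
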