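import Pool.Agent.Helper44K9.FU.Fin2
import Pool.Agent.Helper44K9.FU.Ls
import Pool.Agent.Helper44K9.FU.Pw
import Pool.Agent.Helper44K9.FU.Push
import Pool.Agent.Helper44K9.FU.Tk
import Pool.Agent.Helper44K9.FU.Chb
import Pool.Agent.Helper44K9.FU.Kap
import Pool.Agent.Helper44K9.FU.Dil
import Pool.Agent.Helper44K9.FU.Pig
import Pool.Agent.Helper44K9.FU.Sub

/-!
# Short intervals and all polynomial phases whose leading coefficient is in a small set

For every degree `d`, every compact set `E` of irrational numbers modulo one and every multiplicative function `f` with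
`|f| ≤ 1`: on logarithmic average over `n ≤ N`, the supremum over ALL real polynomials `P` of degree at most `d` whose
coefficient of `x^d` is in `E` modulo one of `|∑_{h ≤ H} f(n+h) e(P(n+h))|` is at most `(A |E|^(1/A) + ε) H`, `A`
depending on `d` only, uniformly over `N ≥ H ≥ H₀(E, ε)` and over `f`. In particular it is `o(H)` if `E` is null.
-/

set_option autoImplicit false

open Finset Polynomial MeasureTheory

namespace Pool.Agent.Results.MP_663568_nt.PolynomialPhases

/-- `e(x) = exp(2 π i x)` -/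
noncomputable def e (x : ℝ) : ℂ := Complex.exp (2 * Real.pi * Complex.I * x)

/-- `f` is multiplicative and bounded by one. -/
def IsBoundedMultiplicative (f : ℕ → ℂ) : Prop :=
  (∀ n, ‖f n‖ ≤ 1) ∧ ∀ a b : ℕ, a.Coprime b → f (a * b) = f a * f b

/-- The supremum of `|∑_{1 ≤ h ≤ H} f(n + h) e(P(n + h))|` over all real polynomials `P` of degree at most `d` whose
coefficient of `x ^ d` is in `E` modulo one; all other coefficients are arbitrary. -/
noncomputable def windowSup (d : ℕ) (E : Set UnitAddCircle) (f : ℕ → ℂ) (n H : ℕ) : ℝ :=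
  ⨆ P : {P : ℝ[X] // P.natDegree ≤ d ∧ ((P.coeff d : ℝ) : UnitAddCircle) ∈ E},
    ‖∑ h ∈ Icc 1 H, f (n + h) * e (P.1.eval ((n + h : ℕ) : ℝ))‖

lemma windowSup_eq (d : ℕ) (E : Set UnitAddCircle) (f : ℕ → ℂ) (n H : ℕ) :
    windowSup d E f n H = Pool.Agent.Helper44K9.FU.wSup d E f n H := by
  unfold windowSup Pool.Agent.Helper44K9.FU.wSup Pool.Agent.Helper44K9.FU.W
  have h1 : Ioc n (n + H) = (Icc 1 H).image (fun h => n + h) := by
    ext m
    simp only [mem_Ioc, mem_image, mem_Icc]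
    constructor
    · intro h; exact ⟨m - n, by omega, by omega⟩
    · rintro ⟨j, hj, rfl⟩; omega
  congr 1
  funext P
  rw [h1, sum_image fun a _ b _ hab => by omega]
  rfl

lemma torsion_free {E : Set UnitAddCircle} (hE : ∀ t : ℝ, (t : UnitAddCircle) ∈ E → Irrational t) :
    ∀ x ∈ E, addOrderOf x = 0 := by
  intro x hx
  induction x using QuotientAddGroup.induction_on with
  | H t =>
    by_contra hne
    have h1 : 0 < addOrderOf (t : UnitAddCircle) := Nat.pos_of_ne_zero hne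
    have h2 := addOrderOf_nsmul_eq_zero (t : UnitAddCircle)
    rw [← AddCircle.coe_nsmul, AddCircle.coe_eq_zero_iff] at h2
    obtain ⟨k, hk⟩ := h2
    have h3 := hE t hx
    apply h3
    refine ⟨(k : ℚ) / (addOrderOf (t : UnitAddCircle) : ℚ), ?_⟩
    push_cast
    rw [div_eq_iff (by exact_mod_cast hne)]
    simp only [zsmul_eq_mul, mul_one, nsmul_eq_mul] at hk
    rw [hk]
    ring

/-- **Polynomial phases with leading coefficient in a small set.** For each degree `d ≥ 1` there is `A` such that for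
every compact set `E` of irrational numbers modulo one and every `ε > 0` there is `H₀` with the following property: for
all multiplicative functions `f` bounded by one and all `N ≥ H ≥ H₀`
`∑_{n ≤ N} (1/n) sup_P |∑_{h ≤ H} f(n + h) e(P(n + h))| ≤ (A |E|^(1/A) + ε) H log N`,
the supremum over all real polynomials of degree at most `d` with coefficient of `x ^ d` in `E` modulo one. In
particular, if `E` has measure zero, the sum is `o(H log N)`, uniformly over `N ≥ H` and `f`. -/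
theorem result :
    (∀ d : ℕ, 1 ≤ d → ∃ A : ℕ, 1 ≤ A ∧ ∀ E : Set UnitAddCircle, IsCompact E →
      (∀ t : ℝ, (t : UnitAddCircle) ∈ E → Irrational t) → ∀ ε : ℝ, 0 < ε →
      ∃ H₀ : ℕ, ∀ f : ℕ → ℂ, IsBoundedMultiplicative f → ∀ N H : ℕ, H₀ ≤ H → H ≤ N →
        ∑ n ∈ Icc 1 N, (1 / (n : ℝ)) * windowSup d E f n H ≤
          (A * (volume E).toReal ^ (1 / (A : ℝ)) + ε) * H * Real.log N) ∧
    (∀ d : ℕ, 1 ≤ d → ∀ E : Set UnitAddCircle, IsCompact E → volume E = 0 →
      (∀ t : ℝ, (t : UnitAddCircle) ∈ E → Irrational t) → ∀ ε : ℝ, 0 < ε →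
      ∃ H₀ : ℕ, ∀ f : ℕ → ℂ, IsBoundedMultiplicative f → ∀ N H : ℕ, H₀ ≤ H → H ≤ N →
        ∑ n ∈ Icc 1 N, (1 / (n : ℝ)) * windowSup d E f n H ≤ ε * H * Real.log N) := by
  have main : ∀ d : ℕ, 1 ≤ d → ∃ A : ℕ, 1 ≤ A ∧ ∀ E : Set UnitAddCircle, IsCompact E →
      (∀ t : ℝ, (t : UnitAddCircle) ∈ E → Irrational t) → ∀ ε : ℝ, 0 < ε →
      ∃ H₀ : ℕ, ∀ f : ℕ → ℂ, IsBoundedMultiplicative f → ∀ N H : ℕ, H₀ ≤ H → H ≤ N →
        ∑ n ∈ Icc 1 N, (1 / (n : ℝ)) * windowSup d E f n H ≤
          (A * (volume E).toReal ^ (1 / (A : ℝ)) + ε) * H * Real.log N := by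
    intro d hd
    open Pool.Agent.Helper44K9.FU in
    obtain ⟨A, hA, h⟩ := fin2 (bes2 wr2) (push tk) nr2 (eq2 pw trig2 kap chb) dil_ pig sub (ls wr tk kap) d hd
    refine ⟨A, hA, fun E hEc hEi ε hε => ?_⟩
    obtain ⟨H₀, hH₀⟩ := h E hEc (torsion_free hEi) ε hε
    refine ⟨H₀, fun f hf N H hH hN => ?_⟩
    simp only [windowSup_eq]
    exact hH₀ f hf N H hH hN
  refine ⟨main, fun d hd E hEc hEv hEi ε hε => ?_⟩
  obtain ⟨A, hA, h⟩ := main d hd
  obtain ⟨H₀, hH₀⟩ := h E hEc hEi ε hε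
  refine ⟨H₀, fun f hf N H hH hN => ?_⟩
  have h1 := hH₀ f hf N H hH hN
  have h2 : (0 : ℝ) ^ (1 / (A : ℝ)) = 0 := by
    apply Real.zero_rpow
    have : (0 : ℝ) < A := by exact_mod_cast hA
    positivity
  rw [hEv, ENNReal.toReal_zero, h2, mul_zero, zero_add] at h1
  exact h1

end Pool.Agent.Results.MP_663568_nt.PolynomialPhases
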