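import Pool.Agent.Helper44K9.FC.Fin
import Pool.Agent.Helper44K9.FC.Bs
import Pool.Agent.Helper44K9.FC.Nr1
import Pool.Agent.Helper44K9.FC.Pigr
import Pool.Agent.Helper44K9.FC.Trig1
import Pool.Agent.Helper44K9.FC.Wpr
import Pool.Agent.Helper44K9.FC.Eq1
import Pool.Agent.Helper44K9.FC.Maj
import Pool.Agent.Helper44K9.FC.Dav
import Pool.Agent.Helper44K9.FC.Sqf
import Pool.Agent.Helper44K9.FU.Push
import Pool.Agent.Helper44K9.FU.Tk
import Pool.Agent.Helper44K9.FU.Chb
import Pool.Agent.Helper44K9.FU.Dil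
import Pool.Agent.Helper44K9.FU.Sub

/-!
# Short exponential sums of the Möbius function, frequencies in a closed set of positive measure

For the Möbius and the Liouville function and for every closed set `E` of frequencies (rational numbers and intervals
are allowed): on logarithmic average over `n ≤ N`, the supremum over `α ∈ E` of `|∑_{h ≤ H} f(n+h) e(α (n+h))|` is at
most `(√(s |E ∪ -E| / 2) + ε) H`, uniformly over `N ≥ H ≥ H₀`, with `s = 6/π²` for the Möbius function and `s = 1` for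
the Liouville function. So the average over `n` of the supremum tends to zero with the measure of `E`.
-/

set_option autoImplicit false

open Finset MeasureTheory

namespace Pool.Agent.Results.MP_663568_nt.ClosedSetsOfFrequencies

/-- `e(x) = exp(2 π i x)` -/
noncomputable def e (x : ℝ) : ℂ := Complex.exp (2 * Real.pi * Complex.I * x)

/-- the Möbius function -/
noncomputable def mu (n : ℕ) : ℂ := ((ArithmeticFunction.moebius n : ℤ) : ℂ)

/-- the Liouville function -/
noncomputable def lam (n : ℕ) : ℂ := (-1) ^ ArithmeticFunction.cardFactors n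

/-- The supremum of `|∑_{1 ≤ h ≤ H} f(n + h) e(α (n + h))|` over the frequencies `α` in `E` (modulo one). -/
noncomputable def windowSup (E : Set UnitAddCircle) (f : ℕ → ℂ) (n H : ℕ) : ℝ :=
  ⨆ α : {α : ℝ // (α : UnitAddCircle) ∈ E}, ‖∑ h ∈ Icc 1 H, f (n + h) * e (α * ((n + h : ℕ) : ℝ))‖

lemma windowSup_eq (E : Set UnitAddCircle) {f : ℕ → ℂ} {H : ℕ} (hH : 1 ≤ H) (n : ℕ) :
    windowSup E f n H = H * Pool.Agent.Helper44K9.FC.sE f E n H := by
  unfold windowSup Pool.Agent.Helper44K9.FC.sE Pool.Agent.Helper44K9.FC.cr Pool.Agent.Helper44K9.FC.V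
  have h1 : Ioc n (n + H) = (Icc 1 H).image (fun h => n + h) := by
    ext m
    simp only [mem_Ioc, mem_image, mem_Icc]
    constructor
    · intro h; exact ⟨m - n, by omega, by omega⟩
    · rintro ⟨j, hj, rfl⟩; omega
  have hH0 : (0 : ℝ) < H := by exact_mod_cast hH
  rw [Real.mul_iSup_of_nonneg hH0.le]
  congr 1
  funext α
  rw [h1, sum_image fun a _ b _ hab => by omega, mul_div_cancel₀ _ hH0.ne']
  rfl

lemma mu_mult : Pool.Agent.Helper44K9.FU.Mul1 mu := by
  constructor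
  · intro n
    unfold mu
    rw [Complex.norm_intCast]
    have h1 := ArithmeticFunction.abs_moebius_le_one (n := n)
    exact_mod_cast h1
  · intro a b hab
    unfold mu
    rw [ArithmeticFunction.isMultiplicative_moebius.map_mul_of_coprime hab]
    push_cast
    ring

lemma lam_mult : Pool.Agent.Helper44K9.FU.Mul1 lam := by
  constructor
  · intro n
    unfold lam
    rw [norm_pow, norm_neg, norm_one, one_pow]
  · intro a b hab
    unfold lam
    rcases Nat.eq_zero_or_pos a with ha | ha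
    · subst ha
      have hb : b = 1 := by simpa using hab
      subst hb
      simp
    rcases Nat.eq_zero_or_pos b with hb | hb
    · subst hb
      have ha' : a = 1 := by simpa using hab
      subst ha'
      simp
    rw [ArithmeticFunction.cardFactors_mul ha.ne' hb.ne', pow_add]

/-- the constants -/
lemma main {f : ℕ → ℂ} (hf : Pool.Agent.Helper44K9.FU.Mul1 f) (hr : ∀ n, (starRingEnd ℂ) (f n) = f n)
    (hMAJ : Pool.Agent.Helper44K9.FC.S_MAJ f) (hDAV : Pool.Agent.Helper44K9.FC.S_DAV f) {s : ℝ} (hs0 : 0 ≤ s)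
    (hs1 : s ≤ 1) (hEN : ∀ (H : ℕ) (ε : ℝ), 1 ≤ H → 0 < ε → ∃ N₀ : ℕ, ∀ N ≥ N₀,
      ∑ n ∈ Icc 1 N, (1 / (n : ℝ)) * Pool.Agent.Helper44K9.FC.en f n H ≤ (s + ε) * ∑ n ∈ Icc 1 N, 1 / (n : ℝ))
    (E : Set UnitAddCircle) (hE : IsClosed E) (ε : ℝ) (hε : 0 < ε) :
    ∃ H₀ : ℕ, ∀ N H : ℕ, H₀ ≤ H → H ≤ N → ∑ n ∈ Icc 1 N, (1 / (n : ℝ)) * windowSup E f n H ≤
      (√(s * (volume (E ∪ -E)).toReal / 2) + ε) * H * Real.log N := by
  open Pool.Agent.Helper44K9.FU Pool.Agent.Helper44K9.FC in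
  obtain ⟨H₀, h⟩ := Pool.Agent.Helper44K9.FC.fin bs1 (bs2 bs1) nr1 pigr (eq1 trig1 wpr chb) (push tk) dil_ sub hf hr
    hMAJ hDAV hs0 hs1 hEN E hE.isCompact ε hε
  refine ⟨H₀ + 1, fun N H hH hN => ?_⟩
  have h1 := h N H (by omega) hN
  have h2 : ∑ n ∈ Icc 1 N, (1 / (n : ℝ)) * windowSup E f n H =
      H * ∑ n ∈ Icc 1 N, (1 / (n : ℝ)) * Pool.Agent.Helper44K9.FC.sE f E n H := by
    rw [mul_sum]
    refine sum_congr rfl fun n _ => ?_
    rw [windowSup_eq E (by omega : 1 ≤ H)]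
    ring
  rw [h2]
  calc (H : ℝ) * ∑ n ∈ Icc 1 N, (1 / (n : ℝ)) * Pool.Agent.Helper44K9.FC.sE f E n H ≤
      H * ((√(s * (volume (E ∪ -E)).toReal / 2) + ε) * Real.log N) :=
        mul_le_mul_of_nonneg_left h1 (Nat.cast_nonneg _)
    _ = (√(s * (volume (E ∪ -E)).toReal / 2) + ε) * H * Real.log N := by ring

/-- **Closed sets of frequencies.** For every closed set `E` of frequencies modulo one and each `ε > 0` there is `H₀`
such that for all `N ≥ H ≥ H₀`
`∑_{n ≤ N} (1/n) sup_{α ∈ E} |∑_{h ≤ H} μ(n+h) e(α (n+h))| ≤ (√(3 |E ∪ -E|) / π + ε) H log N`,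
and for the Liouville function the same with the constant `√(|E ∪ -E| / 2)`. -/
theorem result (E : Set UnitAddCircle) (hE : IsClosed E) (ε : ℝ) (hε : 0 < ε) :
    ∃ H₀ : ℕ, ∀ N H : ℕ, H₀ ≤ H → H ≤ N →
      ∑ n ∈ Icc 1 N, (1 / (n : ℝ)) * windowSup E mu n H ≤
        (√(3 * (volume (E ∪ -E)).toReal) / Real.pi + ε) * H * Real.log N ∧
      ∑ n ∈ Icc 1 N, (1 / (n : ℝ)) * windowSup E lam n H ≤
        (√((volume (E ∪ -E)).toReal / 2) + ε) * H * Real.log N := by
  have hpi : 0 < Real.pi := Real.pi_pos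
  have hs1 : 6 / Real.pi ^ 2 ≤ 1 := by
    rw [div_le_one (by positivity)]
    nlinarith [Real.pi_gt_three]
  obtain ⟨H₁, h₁⟩ := main mu_mult (fun n => by unfold mu; simp) Pool.Agent.Helper44K9.FC.maj_mu
    Pool.Agent.Helper44K9.FC.dav_mu (by positivity) hs1 Pool.Agent.Helper44K9.FC.sqf E hE ε hε
  obtain ⟨H₂, h₂⟩ := main lam_mult (fun n => by unfold lam; simp) Pool.Agent.Helper44K9.FC.maj_la
    Pool.Agent.Helper44K9.FC.dav_la zero_le_one le_rfl (fun H ε' _ hε' => ⟨0, fun N _ => by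
      rw [mul_sum]
      refine sum_le_sum fun n _ => ?_
      have h3 := Pool.Agent.Helper44K9.FC.en_le lam_mult.1 n H
      rw [mul_comm (1 + ε')]
      exact mul_le_mul_of_nonneg_left (by linarith) (by positivity)⟩) E hE ε hε
  refine ⟨H₁ + H₂, fun N H hH hN => ⟨?_, ?_⟩⟩
  · have h3 := h₁ N H (by omega) hN
    have h4 : √(6 / Real.pi ^ 2 * (volume (E ∪ -E)).toReal / 2) = √(3 * (volume (E ∪ -E)).toReal) / Real.pi := by
      rw [show 6 / Real.pi ^ 2 * (volume (E ∪ -E)).toReal / 2 = (3 * (volume (E ∪ -E)).toReal) / Real.pi ^ 2 by ring,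
        Real.sqrt_div' _ (by positivity), Real.sqrt_sq hpi.le]
    rw [h4] at h3
    exact h3
  · have h3 := h₂ N H (by omega) hN
    rw [one_mul] at h3
    exact h3

end Pool.Agent.Results.MP_663568_nt.ClosedSetsOfFrequencies
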